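import Pool.Agent.V11120.MTh.Data

/-!
# A plane drawing of nine pairwise crossing edges: the drawing
-/

set_option autoImplicit false
set_option maxRecDepth 100000

namespace Pool.Agent.V11120.MTh

open Equiv TH482.HT Pool.Agent.V11120.Build

/-- the perfect matching with nine edges -/
def G9 : SimpleGraph (Fin 18) where
  Adj u v := u ≠ v ∧ u.1 / 2 = v.1 / 2
  symm := ⟨fun _ _ h => ⟨h.1.symm, h.2.symm⟩⟩
  loopless := ⟨fun _ h => h.1 rfl⟩

instance : DecidableRel G9.Adj := fun u v => inferInstanceAs (Decidable (u ≠ v ∧ u.1 / 2 = v.1 / 2))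

/-- table lookup -/
def tab (N n : ℕ) [NeZero n] (i : ℕ) : Fin n := Fin.ofNat n (look N 8 i)

/-- rotation -/
def rot9 : Perm (Fin 162) where
  toFun d := tab tRot 162 d.1
  invFun d := tab tInv 162 d.1
  left_inv := by
    show ∀ d : Fin 162, tab tInv 162 (tab tRot 162 d.1).1 = d
    decide +kernel
  right_inv := by
    show ∀ d : Fin 162, tab tRot 162 (tab tInv 162 d.1).1 = d
    decide +kernel

/-- reversal -/
def rev9 : Perm (Fin 162) where
  toFun d := tab tRev 162 d.1
  invFun d := tab tRev 162 d.1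
  left_inv := by
    show ∀ d : Fin 162, tab tRev 162 (tab tRev 162 d.1).1 = d
    decide +kernel
  right_inv := by
    show ∀ d : Fin 162, tab tRev 162 (tab tRev 162 d.1).1 = d
    decide +kernel

/-- source -/
def src9 (d : Fin 162) : Fin 18 := tab tSrc 18 d.1
/-- the other end -/
def par9 (u : Fin 18) : Fin 18 := if u.1 % 2 = 0 then Fin.ofNat 18 (u.1 + 1) else Fin.ofNat 18 (u.1 - 1)
/-- target -/
def tgt9 (d : Fin 162) : Fin 18 := par9 (src9 d)
/-- position -/
def pos9 (d : Fin 162) : ℕ := look tPos 8 d.1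
/-- first dart -/
def fd9 (u : Fin 18) : Fin 162 := tab tFd 162 u.1

/-- the drawing -/
def D9 : Drawing G9 :=
  mk G9 162 rot9 rev9 src9 tgt9 pos9 (fun u _ => fd9 u) fd9 (fun _ => 0) (fun d => look tDep 8 d.1) 0
    (by decide +kernel) (by decide +kernel) (by decide +kernel) (by decide +kernel)
    (by decide +kernel) (by decide +kernel) (by decide +kernel) (by decide +kernel)
    (by decide +kernel) (by decide +kernel) (by decide +kernel) (by decide +kernel)

theorem plane9 : D9.OnSurface 0 := by
  have h1 : 54 ≤ numOrbits rot9 := le_numOrbits rot9 54 (fun d => tab tVid 54 d.1)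
    (by decide +kernel) (fun i => tab tVrep 162 i.1) (by decide +kernel)
  have h2 : 29 ≤ numOrbits (rot9 * rev9) := le_numOrbits (rot9 * rev9) 29
    (fun d => tab tFace 29 d.1)
    (by
      show ∀ d : Fin 162, tab tFace 29 (rot9 (rev9 d)).1 = tab tFace 29 d.1
      decide +kernel) (fun i => tab tFrep 162 i.1) (by decide +kernel)
  have h3 := Maps.card_eq_two_mul (α := rev9) D9.rev_rev D9.rev_ne
  rw [Fintype.card_fin] at h3
  have h4 : Maps.numOrbits rev9 = numOrbits rev9 := rfl
  have h5 : D9.euler = (numOrbits rot9 : ℤ) - (numOrbits rev9 : ℤ) +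
    (numOrbits (rot9 * rev9) : ℤ) := rfl
  unfold SurfaceMap.OnSurface
  rw [h5]
  push_cast
  omega

end Pool.Agent.V11120.MTh
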