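import Mathlib
import Pool.Agent.TH482.HT.Defs

/-!
# Thrackles and maximal thrackles
-/

set_option autoImplicit false

namespace Pool.Agent.V11120.MTh

open TH482.HT

/-- The edge of `G` of which the dart `d` of the planarisation is a piece. -/
def edgeOf {V : Type} {G : SimpleGraph V} (𝒟 : Drawing G) (d : 𝒟.D) : Sym2 V :=
  s(𝒟.src d, 𝒟.tgt d)

/-- The crossings of the edge `uv` with the edge `u'v'`, each recorded by the piece of the
directed edge `(u, v)` that leaves the crossing. -/
def crossings {V : Type} {G : SimpleGraph V} (𝒟 : Drawing G) (u v u' v' : V) : Set 𝒟.D :=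
  {d | 0 < 𝒟.pos d ∧ 𝒟.src d = u ∧ 𝒟.tgt d = v ∧ edgeOf 𝒟 (𝒟.rot d) = s(u', v')}

/-- A drawing is a thrackle if any two edges without a common vertex cross exactly once, and two
edges with a common vertex do not cross (nor does an edge cross itself). -/
structure IsThrackle {V : Type} {G : SimpleGraph V} (𝒟 : Drawing G) : Prop where
  once : ∀ u v u' v', G.Adj u v → G.Adj u' v' → Indep u v u' v' →
    (crossings 𝒟 u v u' v').ncard = 1
  none : ∀ u v u' v', G.Adj u v → G.Adj u' v' → ¬ Indep u v u' v' → crossings 𝒟 u v u' v' = ∅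

/-- An arc in the surface of the drawing: it starts in the face to the right of the dart `a`,
crosses the pieces in the list one after the other (each from its right side to its left side, so
the arc then is in the face to the right of the reversed dart) and ends in the face to the right
of the dart `b`. -/
inductive Arc {V : Type} {G : SimpleGraph V} (𝒟 : Drawing G) : 𝒟.D → List 𝒟.D → 𝒟.D → Prop
  | nil {a b : 𝒟.D} : (𝒟.rot * 𝒟.rev).SameCycle a b → Arc 𝒟 a [] b
  | cons {a b c : 𝒟.D} {l : List 𝒟.D} : (𝒟.rot * 𝒟.rev).SameCycle a c → Arc 𝒟 (𝒟.rev c) l b →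
      Arc 𝒟 a (c :: l) b

open Classical in
/-- The thrackle can be extended: there are two non-adjacent vertices `u` and `v` and an arc from
`u` (starting in the angle to the right of a first piece `a` of an edge at `u`) to `v` (ending in
the angle to the right of a first piece `b` of an edge at `v`) that crosses every edge which has
neither `u` nor `v` as an end exactly once, and does not cross the other edges. -/
def Extendable {V : Type} {G : SimpleGraph V} (𝒟 : Drawing G) : Prop :=
  ∃ u v : V, u ≠ v ∧ ¬ G.Adj u v ∧ ∃ (a b : 𝒟.D) (l : List 𝒟.D),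
    𝒟.pos a = 0 ∧ 𝒟.src a = u ∧ 𝒟.pos b = 0 ∧ 𝒟.src b = v ∧ Arc 𝒟 a l b ∧
    ∀ e ∈ G.edgeSet, (l.map (edgeOf 𝒟)).count e = if u ∈ e ∨ v ∈ e then 0 else 1

/-- A maximal thrackle in the plane. -/
structure IsMaximalThrackle {V : Type} {G : SimpleGraph V} (𝒟 : Drawing G) : Prop where
  plane : 𝒟.OnSurface 0
  thrackle : IsThrackle 𝒟
  maximal : ¬ Extendable 𝒟

end Pool.Agent.V11120.MTh
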