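import Pool.Agent.V11120.MTh.Check

/-!
# The drawing is a maximal thrackle
-/

set_option autoImplicit false
set_option maxRecDepth 100000

namespace Pool.Agent.V11120.MTh

open Equiv TH482.HT Pool.Agent.V11120.Build

/-- the crossing of the edge from `u` with the edge of `w` -/
def cr9 (u w : Fin 18) : Fin 162 := tab tCr 162 (16 * u.1 + w.1 / 2)

theorem par_of {u v : Fin 18} (h : G9.Adj u v) : v = par9 u := by
  revert u v
  decide +kernel

theorem s_eq {u v : Fin 18} (h : G9.Adj u v) {d : Fin 162} :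
    s(src9 d, tgt9 d) = s(u, v) ↔ (src9 d).1 / 2 = u.1 / 2 := by
  have h1 : ∀ u d, (s(src9 d, tgt9 d) = s(u, par9 u) ↔ (src9 d).1 / 2 = u.1 / 2) := by
    have h2 : ∀ u w : Fin 18, (s(w, par9 w) = s(u, par9 u) ↔ w.1 / 2 = u.1 / 2) := by
      decide +kernel
    intro u d
    exact h2 u (src9 d)
  rw [par_of h]
  exact h1 u d

theorem indep_iff {u v u' v' : Fin 18} (h : G9.Adj u v) (h' : G9.Adj u' v') :
    Indep u v u' v' ↔ u.1 / 2 ≠ u'.1 / 2 := by
  rw [par_of h, par_of h']
  unfold Indep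
  clear h h'
  revert u u'
  clear v v'
  decide +kernel

theorem thrackle9 : IsThrackle D9 where
  once := by
    intro u v u' v' h h' hi
    rw [indep_iff h h'] at hi
    rw [Set.ncard_eq_one]
    have h1 : ∀ u w : Fin 18, u.1 / 2 ≠ w.1 / 2 → 0 < pos9 (cr9 u w) ∧ src9 (cr9 u w) = u ∧
        (src9 (rot9 (cr9 u w))).1 / 2 = w.1 / 2 := by decide +kernel
    have h2 : ∀ d : Fin 162, 0 < pos9 d → cr9 (src9 d) (src9 (rot9 d)) = d := by decide +kernel
    refine ⟨cr9 u u', ?_⟩
    ext d
    constructor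
    · rintro ⟨g1, g2, g3, g4⟩
      have g4' : (src9 (rot9 d)).1 / 2 = u'.1 / 2 := (s_eq h').1 g4
      have g5 := h2 d g1
      have g6 : cr9 (src9 d) (src9 (rot9 d)) = cr9 u u' := by
        have g2' : src9 d = u := g2
        unfold cr9
        rw [g2', g4']
      exact (g5.symm.trans g6)
    · intro hd
      rw [Set.mem_singleton_iff] at hd
      subst hd
      obtain ⟨g1, g2, g3⟩ := h1 u u' hi
      refine ⟨g1, g2, ?_, (s_eq h').2 g3⟩
      show par9 (src9 (cr9 u u')) = v
      rw [g2, par_of h]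
  none := by
    intro u v u' v' h h' hi
    rw [indep_iff h h', not_not] at hi
    rw [Set.eq_empty_iff_forall_notMem]
    rintro d ⟨g1, g2, g3, g4⟩
    have g4' : (src9 (rot9 d)).1 / 2 = u'.1 / 2 := (s_eq h').1 g4
    have h2 : ∀ d : Fin 162, 0 < pos9 d → (src9 d).1 / 2 ≠ (src9 (rot9 d)).1 / 2 := by
      decide +kernel
    apply h2 d g1
    have g2' : src9 d = u := g2
    rw [g2', g4', hi]

/-! ### Maximality -/

/-- the index of the edge of a dart -/
def eg (d : Fin 162) : ℕ := (src9 d).1 / 2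
/-- the index of the face of a dart -/
def fc (d : Fin 162) : ℕ := look tFace 8 d.1
/-- reachable sets of crossed edges in the face `f`, from the vertex `u` -/
def Rt (u f : ℕ) : ℕ := look (tR u) 512 f

theorem fc_same {a b : Fin 162} (h : (rot9 * rev9).SameCycle a b) : fc a = fc b := by
  have := Maps.mem_of_sameCycle (T := {x | fc a = fc x}) (by
    intro x hx
    have h1 : ∀ x, fc (rot9 (rev9 x)) = fc x := by decide +kernel
    show fc a = fc ((rot9 * rev9) x)
    rw [Perm.mul_apply, h1]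
    exact hx) (by rfl : a ∈ {x | fc a = fc x}) h
  exact this

theorem closure_check : ∀ (u : Fin 18) (d : Fin 162),
    (((Rt u.1 (fc d)) &&& look tN 512 (eg d)) <<< (2 ^ eg d)) ||| Rt u.1 (fc (rev9 d)) =
      Rt u.1 (fc (rev9 d)) := by
  decide +kernel

theorem N_check : ∀ (e : Fin 9) (S : Fin 512),
    (look tN 512 e.1).testBit S.1 = !(S.1.testBit e.1) := by
  decide +kernel

theorem or_check : ∀ (e : Fin 9) (S : Fin 512), S.1.testBit e.1 = false →
    S.1 ||| 2 ^ e.1 = S.1 + 2 ^ e.1 ∧ S.1 ||| 2 ^ e.1 < 512 := by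
  decide +kernel

theorem eg_lt (d : Fin 162) : eg d < 9 := by
  unfold eg
  omega

theorem step {u : Fin 18} {d : Fin 162} {S : ℕ} (hS : S < 512)
    (h1 : (Rt u.1 (fc d)).testBit S = true) (h2 : S.testBit (eg d) = false) :
    (Rt u.1 (fc (rev9 d))).testBit (S ||| 2 ^ eg d) = true := by
  have c := closure_check u d
  have n := N_check ⟨eg d, eg_lt d⟩ ⟨S, hS⟩
  have o := (or_check ⟨eg d, eg_lt d⟩ ⟨S, hS⟩ h2).1
  simp only at n o
  rw [← c, o, Nat.testBit_or, Nat.testBit_shiftLeft]
  have h3 : S + 2 ^ eg d - 2 ^ eg d = S := by omega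
  rw [h3, Nat.testBit_and, h1, n, h2]
  simp

theorem Arc.nil_inv {V : Type} {G : SimpleGraph V} {𝒟 : Drawing G} {a b : 𝒟.D}
    (h : Arc 𝒟 a [] b) : (𝒟.rot * 𝒟.rev).SameCycle a b := by
  cases h with
  | nil h => exact h

theorem Arc.cons_inv {V : Type} {G : SimpleGraph V} {𝒟 : Drawing G} {a b c : 𝒟.D} {l : List 𝒟.D}
    (h : Arc 𝒟 a (c :: l) b) : (𝒟.rot * 𝒟.rev).SameCycle a c ∧ Arc 𝒟 (𝒟.rev c) l b := by
  cases h with
  | cons h1 h2 => exact ⟨h1, h2⟩

theorem arc_inv (u : Fin 18) (b : Fin 162) : ∀ (l : List (Fin 162)) (a : Fin 162) (S : ℕ),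
    Arc D9 a l b → S < 512 → (Rt u.1 (fc a)).testBit S = true →
    (∀ c ∈ l, S.testBit (eg c) = false) → (l.map eg).Nodup →
    ∃ S', S' < 512 ∧ (Rt u.1 (fc b)).testBit S' = true ∧
      ∀ i, S'.testBit i = (S.testBit i || decide (i ∈ l.map eg)) := by
  intro l
  induction l with
  | nil =>
    intro a S hA hS hR _ _
    have h : (rot9 * rev9).SameCycle a b := Arc.nil_inv hA
    refine ⟨S, hS, ?_, fun i => by simp⟩
    rw [← fc_same h]
    exact hR
  | cons c l ih =>
    intro a S hA hS hR hf hnd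
    obtain ⟨h', hA⟩ := Arc.cons_inv hA
    have h : (rot9 * rev9).SameCycle a c := h'
    ·
      rw [List.map_cons, List.nodup_cons] at hnd
      have hc := hf c (List.mem_cons_self ..)
      have hR' : (Rt u.1 (fc c)).testBit S = true := by
        rw [← fc_same h]
        exact hR
      have h1 := step hS hR' hc
      have h2 := (or_check ⟨eg c, eg_lt c⟩ ⟨S, hS⟩ hc).2
      simp only at h2
      obtain ⟨S', g1, g2, g3⟩ := ih (rev9 c) (S ||| 2 ^ eg c) hA h2 h1 (by
        intro c' hc'
        rw [Nat.testBit_or, hf c' (List.mem_cons_of_mem _ hc'), Nat.testBit_two_pow]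
        have : eg c ≠ eg c' := by
          intro he
          apply hnd.1
          rw [he]
          exact List.mem_map_of_mem hc'
        simp [this]) hnd.2
      refine ⟨S', g1, g2, fun i => ?_⟩
      rw [g3, Nat.testBit_or, Nat.testBit_two_pow, List.map_cons]
      by_cases hi : i = eg c
      · subst hi
        simp
      · have hi' : eg c ≠ i := fun h => hi h.symm
        simp [hi, hi']

theorem start_check : ∀ u : Fin 18, (Rt u.1 (fc (fd9 u))).testBit (2 ^ (u.1 / 2)) = true := by
  decide +kernel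

theorem end_check : ∀ u v : Fin 18, u.1 / 2 ≠ v.1 / 2 →
    (Rt u.1 (fc (fd9 v))).testBit (511 - 2 ^ (v.1 / 2)) = false := by
  decide +kernel

theorem mask_check (f : Fin 9) (S : ℕ) (hS : S < 512)
    (h : ∀ i < 9, S.testBit i = decide (i ≠ f.1)) : S = 511 - 2 ^ f.1 := by
  apply Nat.eq_of_testBit_eq
  intro i
  have h0 : ∀ (f : Fin 9) (i : Fin 9), (511 - 2 ^ f.1).testBit i.1 = decide (i.1 ≠ f.1) := by
    decide +kernel
  by_cases hi : i < 9
  · rw [h i hi]
    exact (h0 f ⟨i, hi⟩).symm
  · have h1 : S < 2 ^ i := lt_of_lt_of_le hS (by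
      calc 512 = 2 ^ 9 := by norm_num
        _ ≤ 2 ^ i := Nat.pow_le_pow_right (by norm_num) (by omega))
    have h2 : 511 - 2 ^ f.1 < 2 ^ i := lt_of_le_of_lt (Nat.sub_le _ _) (by
      calc 511 < 2 ^ 9 := by norm_num
        _ ≤ 2 ^ i := Nat.pow_le_pow_right (by norm_num) (by omega))
    rw [Nat.testBit_lt_two_pow h1, Nat.testBit_lt_two_pow h2]

theorem fd_of {a : Fin 162} (h : pos9 a = 0) : fd9 (src9 a) = a := by
  revert a
  decide +kernel

theorem maximal9 : ¬ Extendable D9 := by
  classical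
  rintro ⟨u, v, huv, hadj, a, b, l, ha, hau, hb, hbv, hA, hcount⟩
  have ha' : fd9 u = a := by rw [← hau]; exact fd_of ha
  have hb' : fd9 v = b := by rw [← hbv]; exact fd_of hb
  have huv2 : u.1 / 2 ≠ v.1 / 2 := fun h => hadj ⟨huv, h⟩
  -- the counts in terms of indices
  have hmem : ∀ (w x : Fin 18), (w ∈ s(x, par9 x) ↔ w.1 / 2 = x.1 / 2) := by decide +kernel
  have hGp : ∀ x : Fin 18, G9.Adj x (par9 x) := by decide +kernel
  have hcnt : ∀ (x : Fin 18) (inst : DecidableEq (Sym2 (Fin 18))),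
      @List.count _ (@instBEqOfDecidableEq _ inst) s(x, par9 x) (l.map (edgeOf D9)) =
        (l.map eg).count (x.1 / 2) := by
    intro x inst
    rw [List.count_eq_countP, List.count_eq_countP, List.countP_map, List.countP_map]
    apply List.countP_congr
    intro d _
    simp only [Function.comp_apply, beq_iff_eq]
    exact s_eq (hGp x)
  have hidx : ∀ x : Fin 18, (l.map eg).count (x.1 / 2) =
      if u.1 / 2 = x.1 / 2 ∨ v.1 / 2 = x.1 / 2 then 0 else 1 := by
    intro x
    have := hcount s(x, par9 x) (hGp x)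
    have h2 := (hcnt x _).symm.trans this
    rw [h2]
    simp only [hmem]
  have hidx' : ∀ i < 9, (l.map eg).count i = if u.1 / 2 = i ∨ v.1 / 2 = i then 0 else 1 := by
    intro i hi
    have := hidx ⟨2 * i, by omega⟩
    simp only [show 2 * i / 2 = i by omega] at this
    exact this
  have hnd : (l.map eg).Nodup := by
    rw [List.nodup_iff_count_le_one]
    intro i
    by_cases hi : i < 9
    · rw [hidx' i hi]
      split_ifs <;> omega
    · have : i ∉ l.map eg := by
        intro h
        obtain ⟨d, _, hd⟩ := List.mem_map.1 h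
        have := eg_lt d
        omega
      rw [List.count_eq_zero_of_not_mem this]
      omega
  have hmemi : ∀ i < 9, (i ∈ l.map eg ↔ ¬ (u.1 / 2 = i ∨ v.1 / 2 = i)) := by
    intro i hi
    rw [← List.count_pos_iff, hidx' i hi]
    split_ifs with h
    · simp [h]
    · simp [h]
  obtain ⟨S', g1, g2, g3⟩ := arc_inv u b l a (2 ^ (u.1 / 2)) hA (by
    have : ∀ u : Fin 18, 2 ^ (u.1 / 2) < 512 := by decide +kernel
    exact this u) (by rw [← ha']; exact start_check u) (by
    intro c hc
    rw [Nat.testBit_two_pow]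
    have h1 := (hmemi (eg c) (eg_lt c)).1 (List.mem_map_of_mem hc)
    push Not at h1
    simp [h1.1]) hnd
  have hS : S' = 511 - 2 ^ (v.1 / 2) := by
    refine mask_check ⟨v.1 / 2, by omega⟩ S' g1 ?_
    intro i hi
    rw [g3, Nat.testBit_two_pow]
    have h1 := hmemi i hi
    by_cases h2 : i ∈ l.map eg
    · have h3 := h1.1 h2
      push Not at h3
      have h4 : i ≠ v.1 / 2 := fun h => h3.2 h.symm
      simp only [h2, decide_true, Bool.or_true, ne_eq, h4, not_false_eq_true]
    · have h3 : u.1 / 2 = i ∨ v.1 / 2 = i := by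
        by_contra h
        exact h2 (h1.2 h)
      simp only [h2, decide_false, Bool.or_false, ne_eq, decide_not]
      rcases h3 with h3 | h3
      · subst h3
        simp [huv2]
      · subst h3
        simp [huv2]
  rw [hS] at g2
  have := end_check u v huv2
  rw [hb'] at this
  rw [this] at g2
  exact absurd g2 (by decide)

end Pool.Agent.V11120.MTh
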